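import Mathlib

/-!
# The minimum size of a trade in a complex Hadamard matrix

If `H'` and `H` are complex Hadamard matrices of order `n`, every row of `H' - H` is orthogonal to the
rows in which `H'` and `H` agree, hence it is a linear combination of the `r` rows of `H` that are
changed. A nonzero linear combination of `r` rows of `H` has at least `n / r` nonzero entries.
-/

set_option autoImplicit false

namespace Pool.Agent.Results.MP_f34218_co.TradeSize

open Finset Matrix

/-- A complex Hadamard matrix of order `n`: all entries have modulus `1` and `H H† = n I`. -/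
def IsComplexHadamard {n : ℕ} (H : Matrix (Fin n) (Fin n) ℂ) : Prop :=
  (∀ i j, ‖H i j‖ = 1) ∧ H * Hᴴ = (n : ℂ) • (1 : Matrix (Fin n) (Fin n) ℂ)

/-- The set `T` of positions is a trade in the complex Hadamard matrix `H`: some complex Hadamard
matrix `H' ≠ H` differs from `H` exactly at the positions in `T`. -/
def IsTrade {n : ℕ} (H : Matrix (Fin n) (Fin n) ℂ) (T : Finset (Fin n × Fin n)) : Prop :=
  ∃ H' : Matrix (Fin n) (Fin n) ℂ, IsComplexHadamard H' ∧ H' ≠ H ∧
    ∀ i j, (i, j) ∈ T ↔ H' i j ≠ H i j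

theorem conj_mul_self {n : ℕ} {H : Matrix (Fin n) (Fin n) ℂ} (h : IsComplexHadamard H)
    (hn : 0 < n) : Hᴴ * H = (n : ℂ) • (1 : Matrix (Fin n) (Fin n) ℂ) := by
  have hn' : (n : ℂ) ≠ 0 := by exact_mod_cast hn.ne'
  have h1 : H * ((n : ℂ)⁻¹ • Hᴴ) = 1 := by
    rw [Matrix.mul_smul, h.2, smul_smul, inv_mul_cancel₀ hn', one_smul]
  have h2 := mul_eq_one_comm.1 h1
  rw [Matrix.smul_mul] at h2
  rw [← h2, smul_smul, mul_inv_cancel₀ hn', one_smul]

/-- A row vector whose inner products with all rows of `H` outside `R` vanish and which is not zero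
has at least `n / |R|` nonzero entries. -/
theorem uncertainty {n : ℕ} {H : Matrix (Fin n) (Fin n) ℂ} (h : IsComplexHadamard H)
    (hn : 0 < n) (v : Fin n → ℂ) (R : Finset (Fin n))
    (hv : ∀ k, k ∉ R → ∑ j, v j * star (H k j) = 0) (hv0 : v ≠ 0) :
    n ≤ (univ.filter (fun j => v j ≠ 0)).card * R.card := by
  classical
  set c : Fin n → ℂ := fun k => ∑ j, v j * star (H k j) with hc
  -- Parseval
  have hHH := conj_mul_self h hn
  have hHH' : ∀ a b, ∑ k, star (H k a) * H k b = if a = b then (n : ℂ) else 0 := by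
    intro a b
    have := congrFun (congrFun hHH a) b
    simpa [Matrix.mul_apply, Matrix.conjTranspose_apply, Matrix.one_apply] using this
  have hrec : ∀ j, (n : ℂ) * v j = ∑ k ∈ R, c k * H k j := by
    intro j
    have h1 : ∑ k, c k * H k j = (n : ℂ) * v j := by
      simp only [hc, Finset.sum_mul]
      rw [Finset.sum_comm]
      have : ∀ l, ∑ k, v l * star (H k l) * H k j = v l * (if l = j then (n : ℂ) else 0) := by
        intro l
        rw [← hHH' l j, Finset.mul_sum]
        exact Finset.sum_congr rfl fun k _ => by ring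
      rw [Finset.sum_congr rfl fun l _ => this l]
      simp [mul_comm]
    rw [← h1]
    symm
    apply Finset.sum_subset (Finset.subset_univ R)
    intro k _ hk
    have : c k = 0 := hv k hk
    rw [this, zero_mul]
  have hpars : ∑ k ∈ R, ‖c k‖ ^ 2 = n * ∑ j, ‖v j‖ ^ 2 := by
    have h1 : (∑ k ∈ R, ((‖c k‖ ^ 2 : ℝ) : ℂ)) = (n : ℂ) * ∑ j, ((‖v j‖ ^ 2 : ℝ) : ℂ) := by
      have h2 : ∀ k, ((‖c k‖ ^ 2 : ℝ) : ℂ) = c k * star (c k) := by
        intro k
        rw [Complex.ofReal_pow]
        exact (Complex.mul_conj' _).symm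
      have h3 : ∀ j, ((‖v j‖ ^ 2 : ℝ) : ℂ) = v j * star (v j) := by
        intro j
        rw [Complex.ofReal_pow]
        exact (Complex.mul_conj' _).symm
      simp only [h2, h3]
      have h4 : ∀ k, c k * star (c k) = ∑ j, star (v j) * (c k * H k j) := by
        intro k
        rw [hc]
        simp only [star_sum, star_mul', star_star]
        rw [Finset.mul_sum]
        exact Finset.sum_congr rfl fun j _ => by ring
      simp only [h4]
      rw [Finset.sum_comm, Finset.mul_sum]
      apply Finset.sum_congr rfl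
      intro j _
      rw [← Finset.mul_sum, ← hrec j]
      ring
    exact_mod_cast h1
  -- sup norm bound
  obtain ⟨j0, hj0⟩ : ∃ j0, ∀ j, ‖v j‖ ≤ ‖v j0‖ := by
    have : Nonempty (Fin n) := ⟨⟨0, hn⟩⟩
    obtain ⟨j0, hj0⟩ := Finite.exists_max (fun j => ‖v j‖)
    exact ⟨j0, hj0⟩
  have hj0pos : 0 < ‖v j0‖ := by
    rw [norm_pos_iff]
    intro h0
    apply hv0
    funext j
    have := hj0 j
    rw [h0, norm_zero] at this
    exact norm_le_zero_iff.1 this
  set M : ℝ := ‖v j0‖ with hM
  have hsup : (n : ℝ) * M ≤ ∑ k ∈ R, ‖c k‖ := by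
    have h1 := congrArg norm (hrec j0)
    rw [norm_mul, Complex.norm_natCast] at h1
    rw [h1]
    calc ‖∑ k ∈ R, c k * H k j0‖ ≤ ∑ k ∈ R, ‖c k * H k j0‖ := norm_sum_le _ _
      _ = ∑ k ∈ R, ‖c k‖ := by
          apply Finset.sum_congr rfl
          intro k _
          rw [norm_mul, h.1, mul_one]
  have hcs : (∑ k ∈ R, ‖c k‖) ^ 2 ≤ R.card * ∑ k ∈ R, ‖c k‖ ^ 2 := sq_sum_le_card_mul_sum_sq
  have hl2 : ∑ j, ‖v j‖ ^ 2 ≤ ((univ.filter (fun j => v j ≠ 0)).card : ℝ) * M ^ 2 := by
    have h1 : ∑ j, ‖v j‖ ^ 2 = ∑ j ∈ univ.filter (fun j => v j ≠ 0), ‖v j‖ ^ 2 := by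
      symm
      apply Finset.sum_subset (Finset.subset_univ _)
      intro j _ hj
      have : v j = 0 := by simpa using hj
      rw [this]; simp
    rw [h1]
    calc ∑ j ∈ univ.filter (fun j => v j ≠ 0), ‖v j‖ ^ 2
        ≤ ∑ j ∈ univ.filter (fun j => v j ≠ 0), M ^ 2 := by
          apply Finset.sum_le_sum
          intro j _
          exact pow_le_pow_left₀ (norm_nonneg _) (hj0 j) 2
      _ = ((univ.filter (fun j => v j ≠ 0)).card : ℝ) * M ^ 2 := by
          rw [Finset.sum_const, nsmul_eq_mul]
  have hnpos : (0 : ℝ) < n := by exact_mod_cast hn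
  have hfin : ((n : ℝ) * M) ^ 2 ≤
      (R.card : ℝ) * ((n : ℝ) * (((univ.filter (fun j => v j ≠ 0)).card : ℝ) * M ^ 2)) := by
    calc ((n : ℝ) * M) ^ 2 ≤ (∑ k ∈ R, ‖c k‖) ^ 2 := by
          apply pow_le_pow_left₀ (by positivity) hsup
      _ ≤ R.card * ∑ k ∈ R, ‖c k‖ ^ 2 := hcs
      _ = R.card * (n * ∑ j, ‖v j‖ ^ 2) := by rw [hpars]
      _ ≤ _ := by
          apply mul_le_mul_of_nonneg_left _ (by positivity)
          exact mul_le_mul_of_nonneg_left hl2 (by positivity)
  have hfin2 : (n : ℝ) ≤ ((univ.filter (fun j => v j ≠ 0)).card : ℝ) * R.card := by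
    have hpos : 0 < (n : ℝ) * M ^ 2 := by positivity
    by_contra hlt
    push Not at hlt
    have := mul_lt_mul_of_pos_right hlt hpos
    nlinarith [this, hfin]
  exact_mod_cast hfin2

/-- Every trade in every complex Hadamard matrix of order `n` has at least `n` elements. -/
theorem result (n : ℕ) (H : Matrix (Fin n) (Fin n) ℂ) (hH : IsComplexHadamard H)
    (T : Finset (Fin n × Fin n)) (hT : IsTrade H T) : n ≤ T.card := by
  classical
  obtain ⟨H', hH', hne, hT⟩ := hT
  rcases Nat.eq_zero_or_pos n with hn | hn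
  · omega
  -- the changed rows
  set R : Finset (Fin n) := univ.filter (fun i => ∃ j, H' i j ≠ H i j) with hR
  have hRne : 0 < R.card := by
    rw [Finset.card_pos]
    by_contra hemp
    rw [Finset.not_nonempty_iff_eq_empty] at hemp
    apply hne
    ext i j
    by_contra hij
    have : i ∈ R := by rw [hR]; simp only [mem_filter, mem_univ, true_and]; exact ⟨j, hij⟩
    rw [hemp] at this
    exact absurd this (Finset.notMem_empty _)
  have horth : ∀ (K : Matrix (Fin n) (Fin n) ℂ), IsComplexHadamard K → ∀ i k, i ≠ k →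
      ∑ j, K i j * star (K k j) = 0 := by
    intro K hK i k hik
    have := congrFun (congrFun hK.2 i) k
    simpa [Matrix.mul_apply, Matrix.conjTranspose_apply, Matrix.one_apply, hik] using this
  have hrow : ∀ i ∈ R, n ≤ (univ.filter (fun j => H' i j - H i j ≠ 0)).card * R.card := by
    intro i hi
    apply uncertainty hH hn (fun j => H' i j - H i j) R
    · intro k hk
      have hk' : ∀ j, H' k j = H k j := by
        intro j
        by_contra hkj
        apply hk
        rw [hR]; simp only [mem_filter, mem_univ, true_and]; exact ⟨j, hkj⟩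
      have hik : i ≠ k := by rintro rfl; exact hk hi
      have h1 := horth H' hH' i k hik
      have h2 := horth H hH i k hik
      simp only [sub_mul, Finset.sum_sub_distrib]
      rw [h2, sub_zero, ← h1]
      exact Finset.sum_congr rfl fun j _ => by rw [hk' j]
    · intro h0
      rw [hR, mem_filter] at hi
      obtain ⟨j, hj⟩ := hi.2
      exact hj (sub_eq_zero.1 (congrFun h0 j))
  -- count
  have hcard : T.card = ∑ i, (univ.filter (fun j => H' i j - H i j ≠ 0)).card := by
    have h1 : T = univ.filter (fun p : Fin n × Fin n => H' p.1 p.2 - H p.1 p.2 ≠ 0) := by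
      ext ⟨i, j⟩
      rw [hT]
      simp [sub_eq_zero]
    rw [h1, Finset.card_filter]
    rw [← Finset.univ_product_univ, Finset.sum_product]
    exact Finset.sum_congr rfl fun i _ => by rw [Finset.card_filter]
  have hsum : R.card * n ≤ T.card * R.card := by
    rw [hcard, Finset.sum_mul]
    calc R.card * n = ∑ i ∈ R, n := by rw [Finset.sum_const, smul_eq_mul]
      _ ≤ ∑ i ∈ R, (univ.filter (fun j => H' i j - H i j ≠ 0)).card * R.card :=
          Finset.sum_le_sum hrow
      _ ≤ ∑ i, (univ.filter (fun j => H' i j - H i j ≠ 0)).card * R.card :=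
          Finset.sum_le_sum_of_subset (Finset.subset_univ R)
  rw [mul_comm R.card n] at hsum
  exact Nat.le_of_mul_le_mul_right hsum hRne

end Pool.Agent.Results.MP_f34218_co.TradeSize
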